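import Mathlib

/-! Randomly thinned lines of the affine plane over `ZMod q` have no bounded transversal;
blow-up to intersections `≤ l`. -/

namespace Trans74

open Finset

section plane

variable (q : ℕ) [Fact q.Prime]

/-- the graph of `x ↦ a + b x` over a set of abscissae -/
def gr (k : ZMod q × ZMod q) (T : Finset (ZMod q)) : Finset (ZMod q × ZMod q) :=
  T.image (fun x => (x, k.1 + k.2 * x))

variable {q}

lemma mem_gr {k : ZMod q × ZMod q} {T : Finset (ZMod q)} {p : ZMod q × ZMod q} :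
    p ∈ gr q k T ↔ p.1 ∈ T ∧ p.2 = k.1 + k.2 * p.1 := by
  unfold gr
  rw [Finset.mem_image]
  constructor
  · rintro ⟨x, hx, rfl⟩
    exact ⟨hx, rfl⟩
  · rintro ⟨h1, h2⟩
    exact ⟨p.1, h1, Prod.ext rfl h2.symm⟩

lemma card_gr (k : ZMod q × ZMod q) (T : Finset (ZMod q)) : (gr q k T).card = T.card :=
  Finset.card_image_of_injective _ (fun _ _ h => congrArg Prod.fst h)

lemma gr_inter (k k' : ZMod q × ZMod q) (h : k ≠ k') (T T' : Finset (ZMod q)) :
    (gr q k T ∩ gr q k' T').card ≤ 1 := by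
  rw [Finset.card_le_one]
  intro p hp p' hp'
  rw [Finset.mem_inter, mem_gr, mem_gr] at hp hp'
  obtain ⟨⟨-, h1⟩, -, h2⟩ := hp
  obtain ⟨⟨-, h3⟩, -, h4⟩ := hp'
  have h5 : (k.2 - k'.2) * (p.1 - p'.1) = 0 := by linear_combination h2 - h1 + h3 - h4
  rcases mul_eq_zero.1 h5 with h6 | h6
  · exfalso
    have h7 : k.2 = k'.2 := sub_eq_zero.1 h6
    apply h
    refine Prod.ext ?_ h7
    rw [h7] at h1
    linear_combination h2 - h1
  · have h7 : p.1 = p'.1 := sub_eq_zero.1 h6
    refine Prod.ext h7 ?_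
    rw [h1, h3, h7]

/-- abscissae surviving the deletion of the residue classes listed by `v` -/
def surv (r C : ℕ) (v : Fin C → Fin r) : Finset (ZMod q) :=
  univ.filter (fun x => ∀ j, x.val % r ≠ (v j).val)

lemma card_class (r j : ℕ) :
    (univ.filter (fun x : ZMod q => x.val % r = j)).card ≤ q / r + 1 := by
  rw [← Finset.card_range (q / r + 1)]
  refine Finset.card_le_card_of_injOn (fun x => x.val / r) ?_ ?_
  · intro x _
    simp only [Finset.coe_range, Set.mem_Iio]
    exact Nat.lt_succ_of_le (Nat.div_le_div_right (ZMod.val_lt x).le)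
  · intro x hx y hy hxy
    simp only [Finset.coe_filter, Finset.mem_univ, true_and, Set.mem_ofPred_eq] at hx hy hxy
    apply ZMod.val_injective
    rw [← Nat.div_add_mod x.val r, ← Nat.div_add_mod y.val r, hx, hy, hxy]

lemma card_surv (r C : ℕ) (v : Fin C → Fin r) :
    q ≤ (surv (q := q) r C v).card + C * (q / r + 1) := by
  have h1 : (univ : Finset (ZMod q)) ⊆ surv r C v ∪
      univ.biUnion (fun j : Fin C => univ.filter (fun x : ZMod q => x.val % r = (v j).val)) := by
    intro x _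
    by_cases h : ∀ j, x.val % r ≠ (v j).val
    · exact Finset.mem_union_left _ (Finset.mem_filter.2 ⟨Finset.mem_univ _, h⟩)
    · push Not at h
      obtain ⟨j, hj⟩ := h
      exact Finset.mem_union_right _ (Finset.mem_biUnion.2 ⟨j, Finset.mem_univ _,
        Finset.mem_filter.2 ⟨Finset.mem_univ _, hj⟩⟩)
  have h2 := Finset.card_le_card h1
  have h3 := Finset.card_union_le (surv (q := q) r C v)
    (univ.biUnion (fun j : Fin C => univ.filter (fun x : ZMod q => x.val % r = (v j).val)))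
  have h4 := Finset.card_biUnion_le_card_mul (univ : Finset (Fin C))
    (fun j : Fin C => univ.filter (fun x : ZMod q => x.val % r = (v j).val)) (q / r + 1)
    (fun j _ => card_class r _)
  rw [Finset.card_univ, ZMod.card] at h2
  rw [Finset.card_univ, Fintype.card_fin] at h4
  omega

/-- any small set of abscissae can be deleted -/
lemma exists_kill (r C : ℕ) (hr : 0 < r) (U : Finset (ZMod q)) (hU : U.card ≤ C) :
    ∃ v : Fin C → Fin r, ∀ x ∈ U, x ∉ surv (q := q) r C v := by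
  have hcard : Fintype.card U ≤ Fintype.card (Fin C) := by simpa using hU
  obtain ⟨e⟩ := Function.Embedding.nonempty_of_card_le hcard
  classical
  refine ⟨fun j => if h : ∃ x : U, e x = j then ⟨h.choose.1.val % r, Nat.mod_lt _ hr⟩
    else ⟨0, hr⟩, fun x hx hs => ?_⟩
  have h1 := (Finset.mem_filter.1 hs).2 (e ⟨x, hx⟩)
  have h2 : ∃ y : U, e y = e ⟨x, hx⟩ := ⟨_, rfl⟩
  have h3 : h2.choose = ⟨x, hx⟩ := e.injective h2.choose_spec
  apply h1
  simp only [dif_pos h2, h3]

/-- thinned line -/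
def thin (r C : ℕ) (k : ZMod q × ZMod q) (v : Fin C → Fin r) : Finset (ZMod q × ZMod q) :=
  gr q k (if k.2 = 0 then univ else surv r C v)

lemma card_thin (r C : ℕ) (k : ZMod q × ZMod q) (v : Fin C → Fin r) :
    q ≤ (thin r C k v).card + C * (q / r + 1) := by
  unfold thin
  rw [card_gr]
  split_ifs
  · rw [Finset.card_univ, ZMod.card]; omega
  · exact card_surv r C v

lemma sum_lines (S : Finset (ZMod q × ZMod q)) :
    ∑ k : ZMod q × ZMod q, (gr q k univ ∩ S).card = S.card * q := by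
  have h1 : ∀ k : ZMod q × ZMod q, (gr q k univ ∩ S).card
      = ∑ p ∈ S, if p.2 = k.1 + k.2 * p.1 then 1 else 0 := by
    intro k
    rw [Finset.sum_boole, Nat.cast_id]
    congr 1
    ext p; simp [mem_gr, and_comm]
  simp_rw [h1]
  rw [Finset.sum_comm, ← smul_eq_mul, ← Finset.sum_const]
  refine Finset.sum_congr rfl fun p _ => ?_
  rw [Fintype.sum_prod_type_right]
  have : ∀ b : ZMod q, (∑ a : ZMod q, if p.2 = a + b * p.1 then 1 else 0 : ℕ) = 1 := by
    intro b
    have : ∀ a : ZMod q, (p.2 = a + b * p.1) ↔ (a = p.2 - b * p.1) := fun a =>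
      ⟨fun h => by rw [h]; ring, fun h => by rw [h]; ring⟩
    simp_rw [this]
    simp
  simp_rw [this]
  simp [ZMod.card]

/-- many non-horizontal lines meet a small set in few points -/
lemma many_light (C : ℕ) (hq : 4 ≤ q) (S : Finset (ZMod q × ZMod q)) (hS : S.card ≤ C * q) :
    q * q ≤ 4 * (univ.filter (fun k : ZMod q × ZMod q =>
      k.2 ≠ 0 ∧ (gr q k univ ∩ S).card ≤ 2 * C)).card := by
  set G := univ.filter (fun k : ZMod q × ZMod q => k.2 ≠ 0 ∧ (gr q k univ ∩ S).card ≤ 2 * C)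
  set H := univ.filter (fun k : ZMod q × ZMod q => 2 * C + 1 ≤ (gr q k univ ∩ S).card)
  set Z := univ.filter (fun k : ZMod q × ZMod q => k.2 = 0)
  have h1 : (univ : Finset (ZMod q × ZMod q)) ⊆ G ∪ H ∪ Z := by
    intro k _
    simp only [G, H, Z, Finset.mem_union, Finset.mem_filter, Finset.mem_univ, true_and]
    by_cases h : k.2 = 0
    · exact Or.inr h
    · by_cases h' : (gr q k univ ∩ S).card ≤ 2 * C
      · exact Or.inl (Or.inl ⟨h, h'⟩)
      · exact Or.inl (Or.inr (by omega))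
  have h2 := Finset.card_le_card h1
  have h3 := Finset.card_union_le (G ∪ H) Z
  have h4 := Finset.card_union_le G H
  have h5 : Z.card ≤ q := by
    refine le_of_le_of_eq (Finset.card_le_card_of_injOn (t := (univ : Finset (ZMod q)))
      (fun k => k.1) (fun _ _ => Finset.mem_coe.2 (Finset.mem_univ _)) ?_)
      (by rw [Finset.card_univ, ZMod.card])
    intro k hk k' hk' h
    simp only [Z, Finset.coe_filter, Finset.mem_univ, true_and, Set.mem_ofPred_eq] at hk hk'
    exact Prod.ext h (hk.trans hk'.symm)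
  have h6 : H.card * (2 * C + 1) ≤ C * q * q := by
    calc H.card * (2 * C + 1) = ∑ _k ∈ H, (2 * C + 1) := by rw [Finset.sum_const, smul_eq_mul]
      _ ≤ ∑ k ∈ H, (gr q k univ ∩ S).card :=
          Finset.sum_le_sum fun k hk => (Finset.mem_filter.1 hk).2
      _ ≤ ∑ k, (gr q k univ ∩ S).card := Finset.sum_le_sum_of_subset (Finset.subset_univ _)
      _ = S.card * q := sum_lines S
      _ ≤ C * q * q := Nat.mul_le_mul_right _ hS
  have h7 : 2 * H.card ≤ q * q := by
    have : (2 * H.card) * (2 * C + 1) ≤ (q * q) * (2 * C + 1) := by nlinarith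
    exact Nat.le_of_mul_le_mul_right this (by omega)
  rw [Finset.card_univ, Fintype.card_prod, ZMod.card] at h2
  nlinarith

/-- the thinnings all of whose lines meet a given small set are rare -/
lemma rare (r C : ℕ) (hr : 0 < r) (hq : 4 ≤ q) (S : Finset (ZMod q × ZMod q))
    (hS : S.card ≤ C * q) :
    ((univ.filter (fun w : ZMod q × ZMod q → Fin (2 * C) → Fin r =>
      ∀ k, (thin r (2 * C) k (w k) ∩ S).Nonempty)).card : ℝ) ≤
      ((r : ℝ) ^ (2 * C)) ^ (q * q) * Real.exp (-((q : ℝ) * q / 4) / (r : ℝ) ^ (2 * C)) := by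
  set R : ℝ := (r : ℝ) ^ (2 * C) with hR
  have hR0 : 0 < R := by positivity
  set G := univ.filter (fun k : ZMod q × ZMod q => k.2 ≠ 0 ∧ (gr q k univ ∩ S).card ≤ 2 * C)
    with hG
  set al : ZMod q × ZMod q → Finset (Fin (2 * C) → Fin r) :=
    fun k => univ.filter (fun v => (thin r (2 * C) k v ∩ S).Nonempty) with hal
  have h1 : univ.filter (fun w : ZMod q × ZMod q → Fin (2 * C) → Fin r =>
      ∀ k, (thin r (2 * C) k (w k) ∩ S).Nonempty) = Fintype.piFinset al := by
    ext w; simp [hal]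
  have hRc : (Fintype.card (Fin (2 * C) → Fin r) : ℝ) = R := by simp [hR]
  have h2 : ∀ k, ((al k).card : ℝ) ≤ R * Real.exp (-(if k ∈ G then 1 else 0) / R) := by
    intro k
    split_ifs with hk
    · obtain ⟨hk1, hk2⟩ := (Finset.mem_filter.1 hk).2
      obtain ⟨v, hv⟩ := exists_kill r (2 * C) hr ((gr q k univ ∩ S).image Prod.fst)
        (Finset.card_image_le.trans hk2)
      have hv' : v ∉ al k := by
        intro h
        obtain ⟨p, hp⟩ := (Finset.mem_filter.1 h).2
        rw [Finset.mem_inter, thin, if_neg hk1, mem_gr] at hp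
        exact hv p.1 (Finset.mem_image_of_mem _ (Finset.mem_inter.2
          ⟨mem_gr.2 ⟨Finset.mem_univ _, hp.1.2⟩, hp.2⟩)) hp.1.1
      have h3 : (al k).card + 1 ≤ Fintype.card (Fin (2 * C) → Fin r) := by
        rw [← Finset.card_insert_of_notMem hv']
        exact Finset.card_le_univ _
      have h4 : ((al k).card : ℝ) + 1 ≤ R := by rw [← hRc]; exact_mod_cast h3
      have h5 := Real.add_one_le_exp (-1 / R)
      have h6 : R * (-1 / R + 1) = R - 1 := by field_simp; ring
      have h7 := mul_le_mul_of_nonneg_left h5 hR0.le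
      linarith
    · simp only [neg_zero, zero_div, Real.exp_zero, mul_one]
      rw [← hRc]
      exact_mod_cast Finset.card_le_univ _
  rw [h1, Fintype.card_piFinset, Nat.cast_prod]
  calc ∏ k, ((al k).card : ℝ) ≤ ∏ k, R * Real.exp (-(if k ∈ G then 1 else 0) / R) :=
        Finset.prod_le_prod (fun _ _ => by positivity) (fun k _ => h2 k)
    _ = R ^ (q * q) * Real.exp (-(G.card : ℝ) / R) := by
        rw [Finset.prod_mul_distrib, Finset.prod_const, Finset.card_univ, Fintype.card_prod,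
          ZMod.card, ← Real.exp_sum, ← Finset.sum_div, Finset.sum_neg_distrib, Finset.sum_boole]
        simp
    _ ≤ _ := by
        have h3 := many_light C hq S hS
        have h4 : (q : ℝ) * q ≤ 4 * G.card := by exact_mod_cast h3
        gcongr
        linarith

/-- a thinning with no small blocking set -/
lemma exists_thinning (r C : ℕ) (hr : 0 < r) (hq : 4 ≤ q) (hCq : C ≤ q)
    (hbig : 8 * (C : ℝ) * (r : ℝ) ^ (2 * C) * Real.log q < q) :
    ∃ w : ZMod q × ZMod q → Fin (2 * C) → Fin r, ∀ S : Finset (ZMod q × ZMod q),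
      S.card ≤ C * q → ¬ ∀ k, (thin r (2 * C) k (w k) ∩ S).Nonempty := by
  set R : ℝ := (r : ℝ) ^ (2 * C) with hR
  have hR0 : 0 < R := by positivity
  have hq0 : (0 : ℝ) < q := by exact_mod_cast (by omega : 0 < q)
  set bad : Finset (ZMod q × ZMod q) → Finset (ZMod q × ZMod q → Fin (2 * C) → Fin r) :=
    fun S => univ.filter (fun w => ∀ k, (thin r (2 * C) k (w k) ∩ S).Nonempty) with hbad
  set P := Finset.powersetCard (C * q) (univ : Finset (ZMod q × ZMod q)) with hP
  have h1 : ((P.biUnion bad).card : ℝ) ≤ ((q : ℝ) * q) ^ (C * q) *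
      (R ^ (q * q) * Real.exp (-((q : ℝ) * q / 4) / R)) := by
    have h2 : ((P.biUnion bad).card : ℝ) ≤ ∑ S ∈ P, ((bad S).card : ℝ) := by
      exact_mod_cast Finset.card_biUnion_le
    have h3 : ∑ S ∈ P, ((bad S).card : ℝ) ≤
        ∑ _S ∈ P, R ^ (q * q) * Real.exp (-((q : ℝ) * q / 4) / R) :=
      Finset.sum_le_sum fun S hS => rare r C hr hq S (Finset.mem_powersetCard.1 hS).2.le
    have h4 : (P.card : ℝ) ≤ ((q : ℝ) * q) ^ (C * q) := by
      rw [hP, Finset.card_powersetCard, Finset.card_univ, Fintype.card_prod, ZMod.card]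
      exact_mod_cast Nat.choose_le_pow _ _
    rw [Finset.sum_const, nsmul_eq_mul] at h3
    exact h2.trans (h3.trans (mul_le_mul_of_nonneg_right h4 (by positivity)))
  have h5 : ((q : ℝ) * q) ^ (C * q) * Real.exp (-((q : ℝ) * q / 4) / R) < 1 := by
    have e1 : ((q : ℝ) * q) ^ (C * q) = Real.exp (((C * q : ℕ) : ℝ) * (2 * Real.log q)) := by
      rw [Real.exp_nat_mul, two_mul, Real.exp_add, Real.exp_log hq0]
    rw [e1, ← Real.exp_add, Real.exp_lt_one_iff]
    have e2 : (q : ℝ) * (8 * (C : ℝ) * R * Real.log q) < q * q := mul_lt_mul_of_pos_left hbig hq0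
    have e3 : ((C * q : ℕ) : ℝ) * (2 * Real.log q) < (q : ℝ) * q / 4 / R := by
      rw [lt_div_iff₀ hR0]
      push_cast
      nlinarith
    rw [neg_div]
    linarith
  have h6 : (P.biUnion bad).card <
      (univ : Finset (ZMod q × ZMod q → Fin (2 * C) → Fin r)).card := by
    have e1 : ((univ : Finset (ZMod q × ZMod q → Fin (2 * C) → Fin r)).card : ℝ)
        = R ^ (q * q) := by
      simp [hR, ZMod.card]
    have e2 : ((P.biUnion bad).card : ℝ) < R ^ (q * q) := by
      have : (0 : ℝ) < R ^ (q * q) := by positivity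
      nlinarith
    rw [← e1] at e2
    exact_mod_cast e2
  obtain ⟨w, -, hw⟩ := Finset.exists_mem_notMem_of_card_lt_card h6
  refine ⟨w, fun S hS hall => hw ?_⟩
  obtain ⟨S', hSS', hS'⟩ := Finset.exists_superset_card_eq hS
    (by rw [Fintype.card_prod, ZMod.card]; exact Nat.mul_le_mul_right _ hCq)
  refine Finset.mem_biUnion.2 ⟨S', Finset.mem_powersetCard.2 ⟨Finset.subset_univ _, hS'⟩,
    Finset.mem_filter.2 ⟨Finset.mem_univ _, fun k => ?_⟩⟩
  exact (hall k).mono (Finset.inter_subset_inter_left hSS')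

/-- a family of thinned lines without a `C`-bounded transversal -/
lemma plane_family (r C : ℕ) (hr : 0 < r) (hq : 4 ≤ q) (hCq : C ≤ q)
    (hbig : 8 * (C : ℝ) * (r : ℝ) ^ (2 * C) * Real.log q < q) :
    ∃ F : Finset (Finset (ZMod q × ZMod q)),
      (∀ A ∈ F, q ≤ A.card + 2 * C * (q / r + 1)) ∧
      (∀ A ∈ F, ∀ B ∈ F, A ≠ B → (A ∩ B).card ≤ 1) ∧
      ¬ ∃ S : Finset (ZMod q × ZMod q), ∀ A ∈ F, 1 ≤ (A ∩ S).card ∧ (A ∩ S).card ≤ C := by
  obtain ⟨w, hw⟩ := exists_thinning r C hr hq hCq hbig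
  refine ⟨univ.image (fun k => thin r (2 * C) k (w k)), ?_, ?_, ?_⟩
  · intro A hA
    obtain ⟨k, -, rfl⟩ := Finset.mem_image.1 hA
    exact card_thin _ _ _ _
  · intro A hA B hB hne
    obtain ⟨k, -, rfl⟩ := Finset.mem_image.1 hA
    obtain ⟨k', -, rfl⟩ := Finset.mem_image.1 hB
    exact gr_inter k k' (fun h => hne (by rw [h])) _ _
  · rintro ⟨S, hS⟩
    have hS' : ∀ k, 1 ≤ (thin r (2 * C) k (w k) ∩ S).card ∧
        (thin r (2 * C) k (w k) ∩ S).card ≤ C := fun k =>
      hS _ (Finset.mem_image_of_mem _ (Finset.mem_univ k))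
    refine hw S ?_ (fun k => Finset.card_pos.1 (hS' k).1)
    have h1 : S ⊆ univ.biUnion (fun a : ZMod q => thin r (2 * C) (a, 0) (w (a, 0)) ∩ S) := by
      intro p hp
      refine Finset.mem_biUnion.2 ⟨p.2, Finset.mem_univ _, Finset.mem_inter.2 ⟨?_, hp⟩⟩
      simp [thin, mem_gr]
    have h2 := Finset.card_biUnion_le_card_mul (univ : Finset (ZMod q))
      (fun a : ZMod q => thin r (2 * C) (a, 0) (w (a, 0)) ∩ S) C (fun a _ => (hS' _).2)
    rw [Finset.card_univ, ZMod.card] at h2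
    exact (Finset.card_le_card h1).trans (h2.trans (mul_comm _ _).le)

end plane

/-- blow-up of every point into `l` copies, transported to `Fin n` -/
lemma blowup {α : Type*} [Fintype α] [DecidableEq α] (l C : ℕ) (F : Finset (Finset α))
    (hint : ∀ A ∈ F, ∀ B ∈ F, A ≠ B → (A ∩ B).card ≤ 1)
    (hno : ¬ ∃ S : Finset α, ∀ A ∈ F, 1 ≤ (A ∩ S).card ∧ (A ∩ S).card ≤ C) :
    ∃ F' : Finset (Finset (Fin (Fintype.card α * l))),
      (∀ A' ∈ F', ∃ A ∈ F, A'.card = A.card * l) ∧
      (∀ A ∈ F', ∀ B ∈ F', A ≠ B → (A ∩ B).card ≤ l) ∧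
      ¬ ∃ S, ∀ A ∈ F', 1 ≤ (A ∩ S).card ∧ (A ∩ S).card ≤ C := by
  obtain ⟨e⟩ : Nonempty (α × Fin l ≃ Fin (Fintype.card α * l)) :=
    ⟨Fintype.equivFinOfCardEq (by simp)⟩
  set up : Finset α → Finset (Fin (Fintype.card α * l)) :=
    fun A => (A ×ˢ (univ : Finset (Fin l))).map e.toEmbedding with hup
  have hmem : ∀ A y, y ∈ up A ↔ (e.symm y).1 ∈ A := by
    intro A y
    simp [hup, Finset.mem_map_equiv]
  have hcard : ∀ A, (up A).card = A.card * l := by intro A; simp [hup]
  refine ⟨F.image up, ?_, ?_, ?_⟩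
  · intro A' hA'
    obtain ⟨A, hA, rfl⟩ := Finset.mem_image.1 hA'
    exact ⟨A, hA, hcard A⟩
  · intro A' hA' B' hB' hne
    obtain ⟨A, hA, rfl⟩ := Finset.mem_image.1 hA'
    obtain ⟨B, hB, rfl⟩ := Finset.mem_image.1 hB'
    have h1 : up A ∩ up B = up (A ∩ B) := by ext y; simp [hmem]
    rw [h1, hcard]
    have := hint A hA B hB (fun h => hne (by rw [h]))
    nlinarith
  · rintro ⟨S, hS⟩
    refine hno ⟨S.image (fun y => (e.symm y).1), fun A hA => ?_⟩
    obtain ⟨h1, h2⟩ := hS _ (Finset.mem_image_of_mem _ hA)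
    constructor
    · obtain ⟨y, hy⟩ := Finset.card_pos.1 h1
      rw [Finset.mem_inter, hmem] at hy
      exact Finset.card_pos.2 ⟨_, Finset.mem_inter.2 ⟨hy.1, Finset.mem_image_of_mem _ hy.2⟩⟩
    · refine le_trans (Finset.card_le_card ?_)
        ((Finset.card_image_le (f := fun y => (e.symm y).1)).trans h2)
      intro x hx
      obtain ⟨hx1, hx2⟩ := Finset.mem_inter.1 hx
      obtain ⟨y, hy, rfl⟩ := Finset.mem_image.1 hx2
      exact Finset.mem_image_of_mem _ (Finset.mem_inter.2 ⟨(hmem _ _).2 hx1, hy⟩)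

/-- below the threshold no bound works -/
theorem negative (c : ℝ) (l : ℕ) (hc : 0 < c) (hl : c ^ 2 < l) (C : ℕ) :
    ∃ n : ℕ, ∃ F : Finset (Finset (Fin n)),
      (∀ A ∈ F, c * Real.sqrt (n : ℝ) < (A.card : ℝ)) ∧
      (∀ A ∈ F, ∀ B ∈ F, A ≠ B → (A ∩ B).card ≤ l) ∧
      ¬ ∃ S : Finset (Fin n), ∀ A ∈ F, 1 ≤ (A ∩ S).card ∧ (A ∩ S).card ≤ C := by
  have hl0 : (0 : ℝ) < l := lt_of_le_of_lt (by positivity) hl
  set t := Real.sqrt (l : ℝ) with ht
  have ht0 : 0 < t := Real.sqrt_pos.2 hl0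
  have htt : t * t = l := Real.mul_self_sqrt hl0.le
  have hct : c < t := Real.lt_sqrt hc.le |>.2 hl
  set ε := 1 - c / t with hε
  have hε0 : 0 < ε := sub_pos.2 ((div_lt_one ht0).2 hct)
  obtain ⟨r, hr⟩ := exists_nat_gt (4 * C / ε)
  have hr0 : (0 : ℝ) < r := lt_of_le_of_lt (by positivity) hr
  set K : ℝ := 16 * (C : ℝ) * (r : ℝ) ^ (2 * C) with hK
  obtain ⟨N, hN⟩ := exists_nat_gt (K ^ 2)
  obtain ⟨q, hqN, hq⟩ := Nat.exists_infinite_primes (N + 4 + C + r)
  have : Fact q.Prime := ⟨hq⟩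
  have hq0 : (0 : ℝ) < q := by exact_mod_cast hq.pos
  have hbig : 8 * (C : ℝ) * (r : ℝ) ^ (2 * C) * Real.log q < q := by
    have e0 : 0 < Real.sqrt (q : ℝ) := Real.sqrt_pos.2 hq0
    have e1 : Real.log q = 2 * Real.log (Real.sqrt q) := by
      rw [Real.log_sqrt hq0.le]; ring
    have e2 := Real.log_le_sub_one_of_pos e0
    have e3 : K < Real.sqrt q := by
      apply Real.lt_sqrt_of_sq_lt
      have : (N : ℝ) ≤ q := by exact_mod_cast (by omega : N ≤ q)
      linarith
    have e4 : Real.sqrt (q : ℝ) * Real.sqrt q = q := Real.mul_self_sqrt hq0.le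
    have e5 : 0 ≤ K := by positivity
    have e6 : 8 * (C : ℝ) * (r : ℝ) ^ (2 * C) * Real.log q = K * Real.log (Real.sqrt q) := by
      rw [e1, hK]; ring
    rw [e6]
    nlinarith
  obtain ⟨F, h1, h2, h3⟩ := plane_family (q := q) r C (by exact_mod_cast hr0) (by omega)
    (by omega) hbig
  obtain ⟨F', h4, h5, h6⟩ := blowup l C F h2 h3
  refine ⟨_, F', fun A' hA' => ?_, h5, h6⟩
  obtain ⟨A, hA, hc'⟩ := h4 A' hA'
  have e1 : Real.sqrt ((Fintype.card (ZMod q × ZMod q) * l : ℕ) : ℝ) = q * t := by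
    rw [Fintype.card_prod, ZMod.card]
    push_cast
    rw [Real.sqrt_mul (by positivity), Real.sqrt_mul_self hq0.le]
  rw [e1, hc']
  have e2 : (q : ℝ) ≤ A.card + 2 * C * (((q / r : ℕ) : ℝ) + 1) := by exact_mod_cast h1 A hA
  have e3 : ((q / r : ℕ) : ℝ) ≤ q / r := Nat.cast_div_le
  have e4 : (1 : ℝ) ≤ q / r := by
    rw [le_div_iff₀ hr0, one_mul]; exact_mod_cast (by omega : r ≤ q)
  have e5 : 4 * (C : ℝ) * (q / r) < ε * q := by
    rw [div_lt_iff₀ hε0] at hr
    rw [← mul_div_assoc, div_lt_iff₀ hr0]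
    nlinarith
  have hC0 : (0 : ℝ) ≤ C := by positivity
  have e6 : c / t * q < A.card := by
    have : c / t = 1 - ε := by rw [hε]; ring
    rw [this]
    nlinarith
  push_cast
  rw [← htt]
  have e7 : c * (q * t) = (c / t * q) * (t * t) := by field_simp
  rw [e7]
  exact mul_lt_mul_of_pos_right e6 (by positivity)

end Trans74
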