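import Mathlib

/-! Families of large sets with small pairwise intersections above the threshold: few sets,
and a greedy bounded transversal. -/

namespace Trans74

open Finset

variable {α : Type*} [DecidableEq α]

/-- double counting of incidences -/
lemma sum_inter_eq (F : Finset (Finset α)) (S : Finset α) :
    ∑ B ∈ F, (B ∩ S).card = ∑ x ∈ S, (F.filter (fun B => x ∈ B)).card := by
  have h1 : ∀ B ∈ F, (B ∩ S).card = ∑ x ∈ S, if x ∈ B then 1 else 0 := by
    intro B _
    rw [Finset.sum_boole, Nat.cast_id]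
    congr 1
    ext x; simp [and_comm]
  have h2 : ∀ x ∈ S, (F.filter (fun B => x ∈ B)).card = ∑ B ∈ F, if x ∈ B then 1 else 0 := by
    intro x _
    rw [Finset.sum_boole, Nat.cast_id]
  rw [Finset.sum_congr rfl h1, Finset.sum_congr rfl h2, Finset.sum_comm]

/-- Johnson-type bound on the number of sets -/
lemma card_family_le [Fintype α] (F : Finset (Finset α)) (c s : ℝ) (l : ℕ) (hc : 0 < c) (hs : 0 < s)
    (hsn : s ^ 2 = Fintype.card α)
    (hbig : ∀ A ∈ F, c * s < (A.card : ℝ))
    (hint : ∀ A ∈ F, ∀ B ∈ F, A ≠ B → (A ∩ B).card ≤ l) :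
    (F.card : ℝ) * (c ^ 2 - l) ≤ c * s := by
  rcases Nat.eq_zero_or_pos F.card with h0 | hm
  · rw [h0]; simp; positivity
  have hcs : 0 < c * s := by positivity
  set f : α → ℝ := fun x => ∑ A ∈ F, if x ∈ A then 1 / (A.card : ℝ) else 0 with hf
  have h1 : ∑ x, f x = F.card := by
    rw [Finset.sum_comm]
    rw [Finset.card_eq_sum_ones, Nat.cast_sum]
    refine Finset.sum_congr rfl fun A hA => ?_
    have : (0 : ℝ) < A.card := hcs.trans (hbig A hA)
    rw [← Finset.sum_filter]
    simp
    field_simp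
  have h2 : ∑ x, f x ^ 2 = ∑ A ∈ F, ∑ B ∈ F, ((A ∩ B).card : ℝ) / ((A.card : ℝ) * B.card) := by
    have : ∀ x, f x ^ 2 = ∑ A ∈ F, ∑ B ∈ F,
        if x ∈ A ∩ B then 1 / ((A.card : ℝ) * B.card) else 0 := by
      intro x
      rw [sq, hf, Finset.sum_mul_sum]
      refine Finset.sum_congr rfl fun A _ => Finset.sum_congr rfl fun B _ => ?_
      by_cases ha : x ∈ A <;> by_cases hb : x ∈ B <;> simp [ha, hb, mul_comm]
    simp_rw [this]
    rw [Finset.sum_comm]
    refine Finset.sum_congr rfl fun A _ => ?_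
    rw [Finset.sum_comm]
    refine Finset.sum_congr rfl fun B _ => ?_
    rw [← Finset.sum_filter]
    have : (univ.filter fun x => x ∈ A ∩ B) = A ∩ B := by ext; simp
    rw [this]
    simp [div_eq_mul_inv]
  have h3 : ∀ A ∈ F, ∑ B ∈ F, ((A ∩ B).card : ℝ) / ((A.card : ℝ) * B.card)
      ≤ 1 / (c * s) + F.card * (l / (c * s) ^ 2) := by
    intro A hA
    have hA0 : (0 : ℝ) < A.card := hcs.trans (hbig A hA)
    rw [← Finset.add_sum_erase _ _ hA]
    apply add_le_add
    · rw [Finset.inter_self]
      have : (A.card : ℝ) / (A.card * A.card) = 1 / A.card := by field_simp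
      rw [this]
      exact one_div_le_one_div_of_le hcs (hbig A hA).le
    · calc ∑ B ∈ F.erase A, ((A ∩ B).card : ℝ) / ((A.card : ℝ) * B.card)
          ≤ ∑ B ∈ F.erase A, (l / (c * s) ^ 2 : ℝ) := by
            refine Finset.sum_le_sum fun B hB => ?_
            have hB' := Finset.mem_of_mem_erase hB
            have hne : A ≠ B := (Finset.ne_of_mem_erase hB).symm
            have hl : ((A ∩ B).card : ℝ) ≤ l := by exact_mod_cast hint A hA B hB' hne
            apply div_le_div₀ (by positivity) hl (by positivity)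
            rw [sq]
            exact mul_le_mul (hbig A hA).le (hbig B hB').le hcs.le hA0.le
        _ ≤ F.card * (l / (c * s) ^ 2) := by
            rw [Finset.sum_const, nsmul_eq_mul]
            apply mul_le_mul_of_nonneg_right _ (by positivity)
            exact_mod_cast Finset.card_erase_le
  have h4 : (∑ x, f x) ^ 2 ≤ (Fintype.card α : ℝ) * ∑ x, f x ^ 2 := by
    have := sq_sum_le_card_mul_sum_sq (s := (univ : Finset α)) (f := f)
    simpa using this
  rw [h1, h2, ← hsn] at h4
  have h5 : ∑ A ∈ F, ∑ B ∈ F, ((A ∩ B).card : ℝ) / ((A.card : ℝ) * B.card)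
      ≤ F.card * (1 / (c * s) + F.card * (l / (c * s) ^ 2)) := by
    have := Finset.sum_le_sum h3
    rwa [Finset.sum_const, nsmul_eq_mul] at this
  have hm' : (0 : ℝ) < F.card := by exact_mod_cast hm
  have h6 : (F.card : ℝ) ^ 2 ≤ s ^ 2 * (F.card * (1 / (c * s) + F.card * (l / (c * s) ^ 2))) :=
    h4.trans (mul_le_mul_of_nonneg_left h5 (by positivity))
  have h7 : s ^ 2 * (F.card * (1 / (c * s) + F.card * (l / (c * s) ^ 2)))
      = F.card * ((c * s + F.card * l) / c ^ 2) := by field_simp
  rw [h7, sq] at h6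
  have h8 := le_of_mul_le_mul_left h6 hm'
  rw [le_div_iff₀ (by positivity)] at h8
  nlinarith

/-- few points of a member have large degree -/
lemma high_card_le (F : Finset (Finset α)) (l D : ℕ)
    (hint : ∀ A ∈ F, ∀ B ∈ F, A ≠ B → (A ∩ B).card ≤ l) (A : Finset α) (hA : A ∈ F) :
    (A.filter (fun x => D < (F.filter (fun B => x ∈ B)).card)).card * D ≤ l * F.card := by
  set H := A.filter (fun x => D < (F.filter (fun B => x ∈ B)).card) with hH
  have h1 := sum_inter_eq (F.erase A) H
  have h2 : ∑ B ∈ F.erase A, (B ∩ H).card ≤ l * F.card := by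
    calc ∑ B ∈ F.erase A, (B ∩ H).card ≤ ∑ B ∈ F.erase A, l := by
          refine Finset.sum_le_sum fun B hB => ?_
          refine le_trans (Finset.card_le_card ?_)
            (hint B (Finset.mem_of_mem_erase hB) A hA (Finset.ne_of_mem_erase hB))
          exact Finset.inter_subset_inter_left (Finset.filter_subset _ _)
      _ ≤ l * F.card := by
          rw [Finset.sum_const, smul_eq_mul, mul_comm]
          exact Nat.mul_le_mul_left _ Finset.card_erase_le
  have h3 : H.card * D ≤ ∑ x ∈ H, ((F.erase A).filter (fun B => x ∈ B)).card := by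
    rw [← smul_eq_mul, ← Finset.sum_const]
    refine Finset.sum_le_sum fun x hx => ?_
    have hx' := (Finset.mem_filter.1 hx).2
    rw [Finset.filter_erase]
    have := Finset.pred_card_le_card_erase (s := F.filter (fun B => x ∈ B)) (a := A)
    omega
  omega

/-- greedy construction of a bounded transversal -/
lemma greedy (F : Finset (Finset α)) (l D C : ℕ) (hC : 1 ≤ C)
    (hint : ∀ A ∈ F, ∀ B ∈ F, A ≠ B → (A ∩ B).card ≤ l)
    (hlow : ∀ A ∈ F, l * (D * F.card) <
      (A.filter (fun x => (F.filter (fun B => x ∈ B)).card ≤ D)).card * C)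
    (J : Finset (Finset α)) (hJ : J ⊆ F) :
    ∃ S : Finset α, (∀ x ∈ S, (F.filter (fun B => x ∈ B)).card ≤ D) ∧ S.card ≤ J.card ∧
      (∀ A ∈ J, 1 ≤ (A ∩ S).card) ∧ ∀ A ∈ F, (A ∩ S).card ≤ C := by
  induction J using Finset.induction_on with
  | empty => exact ⟨∅, by simp, by simp, by simp, by simp⟩
  | insert A J hAJ ih =>
    obtain ⟨S, hS1, hS2, hS3, hS4⟩ := ih ((Finset.subset_insert _ _).trans hJ)
    have hA : A ∈ F := hJ (Finset.mem_insert_self _ _)
    rw [Finset.card_insert_of_notMem hAJ]
    by_cases hAS : 1 ≤ (A ∩ S).card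
    · refine ⟨S, hS1, by omega, ?_, hS4⟩
      intro B hB
      rcases Finset.mem_insert.1 hB with rfl | hB
      · exact hAS
      · exact hS3 B hB
    · set Full := F.filter (fun B => C ≤ (B ∩ S).card) with hFull
      have hJF : J.card ≤ F.card := Finset.card_le_card ((Finset.subset_insert _ _).trans hJ)
      have h1 : Full.card * C ≤ D * F.card := by
        calc Full.card * C = ∑ _B ∈ Full, C := by rw [Finset.sum_const, smul_eq_mul]
          _ ≤ ∑ B ∈ Full, (B ∩ S).card :=
              Finset.sum_le_sum fun B hB => (Finset.mem_filter.1 hB).2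
          _ ≤ ∑ B ∈ F, (B ∩ S).card :=
              Finset.sum_le_sum_of_subset (Finset.filter_subset _ _)
          _ = ∑ x ∈ S, (F.filter (fun B => x ∈ B)).card := sum_inter_eq F S
          _ ≤ ∑ _x ∈ S, D := Finset.sum_le_sum hS1
          _ = S.card * D := by rw [Finset.sum_const, smul_eq_mul]
          _ ≤ D * F.card := by rw [mul_comm]; exact Nat.mul_le_mul_left _ (by omega)
      have h2 : (Full.biUnion (fun B => B ∩ A)).card ≤ Full.card * l := by
        refine Finset.card_biUnion_le_card_mul _ _ _ fun B hB => ?_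
        have hB' := Finset.mem_filter.1 hB
        refine hint B hB'.1 A hA ?_
        rintro rfl
        omega
      set Low := A.filter (fun x => (F.filter (fun B => x ∈ B)).card ≤ D) with hLow
      have h3 : (Full.biUnion (fun B => B ∩ A)).card < Low.card := by
        have h4 := hlow A hA
        have h5 : Full.card * l * C ≤ l * (D * F.card) := by
          calc Full.card * l * C = l * (Full.card * C) := by ring
            _ ≤ _ := Nat.mul_le_mul_left _ h1
        have h6 : Full.card * l * C < Low.card * C := lt_of_le_of_lt h5 h4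
        have := lt_of_mul_lt_mul_right h6 (Nat.zero_le _)
        omega
      obtain ⟨x, hxL, hxN⟩ := Finset.exists_mem_notMem_of_card_lt_card h3
      have hxL' := Finset.mem_filter.1 hxL
      refine ⟨insert x S, ?_, ?_, ?_, ?_⟩
      · intro y hy
        rcases Finset.mem_insert.1 hy with rfl | hy
        · exact hxL'.2
        · exact hS1 y hy
      · have := Finset.card_insert_le x S
        omega
      · intro B hB
        rcases Finset.mem_insert.1 hB with rfl | hB
        · exact Finset.card_pos.2 ⟨x, Finset.mem_inter.2 ⟨hxL'.1, Finset.mem_insert_self _ _⟩⟩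
        · exact (hS3 B hB).trans (Finset.card_le_card
            (Finset.inter_subset_inter_left (Finset.subset_insert _ _)))
      · intro B hB
        by_cases hxB : x ∈ B
        · have hBF : B ∉ Full := fun h =>
            hxN (Finset.mem_biUnion.2 ⟨B, h, Finset.mem_inter.2 ⟨hxB, hxL'.1⟩⟩)
          have hlt : ¬ C ≤ (B ∩ S).card := fun h => hBF (Finset.mem_filter.2 ⟨hB, h⟩)
          rw [Finset.inter_insert_of_mem hxB]
          have := Finset.card_insert_le x (B ∩ S)
          omega
        · rw [Finset.inter_insert_of_notMem hxB]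
          exact hS4 B hB

/-- above the threshold a bounded transversal exists -/
theorem positive (c : ℝ) (l : ℕ) (hc : 0 < c) (hl : (l : ℝ) < c ^ 2) :
    ∃ C : ℕ, ∀ n : ℕ, ∀ F : Finset (Finset (Fin n)),
      (∀ A ∈ F, c * Real.sqrt (n : ℝ) < (A.card : ℝ)) →
      (∀ A ∈ F, ∀ B ∈ F, A ≠ B → (A ∩ B).card ≤ l) →
      ∃ S : Finset (Fin n), ∀ A ∈ F, 1 ≤ (A ∩ S).card ∧ (A ∩ S).card ≤ C := by
  have hd : 0 < c ^ 2 - l := sub_pos.2 hl
  obtain ⟨D, hD⟩ := exists_nat_gt (2 * l / (c ^ 2 - l))
  have hD0 : (0 : ℝ) < D := lt_of_le_of_lt (by positivity) hD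
  obtain ⟨C, hC⟩ := exists_nat_gt (2 * l * D / (c ^ 2 - l))
  have hC0 : (0 : ℝ) < C := lt_of_le_of_lt (by positivity) hC
  refine ⟨C, fun n F hbig hint => ?_⟩
  rcases Nat.eq_zero_or_pos n with rfl | hn
  · refine ⟨∅, fun A hA => ?_⟩
    have := hbig A hA
    have h0 : A = ∅ := Subsingleton.elim _ _
    simp [h0] at this
  have hs : 0 < Real.sqrt (n : ℝ) := Real.sqrt_pos.2 (by exact_mod_cast hn)
  set s := Real.sqrt (n : ℝ) with hsdef
  have hm := card_family_le F c s l hc hs (by simp [hsdef]) hbig hint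
  have hC1 : 1 ≤ C := by exact_mod_cast hC0
  suffices hlow : ∀ A ∈ F, l * (D * F.card) <
      (A.filter (fun x => (F.filter (fun B => x ∈ B)).card ≤ D)).card * C by
    obtain ⟨S, -, -, h3, h4⟩ := greedy F l D C hC1 hint hlow F subset_rfl
    exact ⟨S, fun A hA => ⟨h3 A hA, h4 A hA⟩⟩
  intro A hA
  have h1 := high_card_le F l D hint A hA
  have h2 := Finset.card_filter_add_card_filter_not (s := A)
    (fun x => (F.filter (fun B => x ∈ B)).card ≤ D)
  simp only [not_le] at h2
  set Lo := (A.filter (fun x => (F.filter (fun B => x ∈ B)).card ≤ D)).card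
  set Hi := (A.filter (fun x => D < (F.filter (fun B => x ∈ B)).card)).card
  have h1' : (Hi : ℝ) * D ≤ l * F.card := by exact_mod_cast h1
  have h2' : (Lo : ℝ) + Hi = A.card := by exact_mod_cast h2
  have hA' := hbig A hA
  rw [div_lt_iff₀ hd] at hD hC
  have hF0 : (0 : ℝ) ≤ F.card := by positivity
  have hl0 : (0 : ℝ) ≤ l := by positivity
  have hcs : 0 < c * s := by positivity
  -- Hi ≤ c s / 2
  have h5 : (Hi : ℝ) * 2 ≤ c * s := by
    have e1 : (2 * l) * (F.card : ℝ) ≤ D * (c ^ 2 - l) * F.card :=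
      mul_le_mul_of_nonneg_right hD.le hF0
    have e2 : D * ((F.card : ℝ) * (c ^ 2 - l)) ≤ D * (c * s) :=
      mul_le_mul_of_nonneg_left hm hD0.le
    have e3 : D * ((Hi : ℝ) * 2) ≤ D * (c * s) := by nlinarith
    exact le_of_mul_le_mul_left e3 hD0
  have h6 : c * s < (Lo : ℝ) * 2 := by linarith
  have h7 : (l : ℝ) * (D * F.card) < Lo * C := by
    have e1 : (2 * l * D) * (F.card : ℝ) ≤ C * (c ^ 2 - l) * F.card :=
      mul_le_mul_of_nonneg_right hC.le hF0
    have e2 : C * ((F.card : ℝ) * (c ^ 2 - l)) ≤ C * (c * s) :=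
      mul_le_mul_of_nonneg_left hm hC0.le
    have e3 : C * (c * s) < C * ((Lo : ℝ) * 2) := mul_lt_mul_of_pos_left h6 hC0
    nlinarith
  exact_mod_cast h7

end Trans74
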